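import Pool.Agent.Y607.PY.Main

/-!
# #PolyaOrbits on nilpotent groups of class two with small orbits
-/

namespace Pool.Agent.H49R2.PY.PD

open Pool.Agent.NPC Pool.Agent.NPC.Cnt Finset Pool.Agent.H49R2.PY

open Masmaux in
/-- The reduction works for every function which agrees with `polya k` on its instances. -/
theorem mainRed_of {k : ℕ} (hk : 2 ≤ k) {g : List Unit × List (List ℕ) → ℕ}
    (hg : ∀ s, g (instF k s) = polya k (instF k s)) : MainRed g := by
  have hG := G_ok
  have hP := P_ok
  have hL1 := L1_ok
  have hL2 := L2_ok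
  have hL3 := L3_ok
  have hK := K_ok
  have hQ1 := Q1_ok
  have hQ2 := Q2_ok
  have hQ3 := Q3_ok
  obtain ⟨hYi, hYc, hYp⟩ := Y_ok k
  refine ⟨instF k, clF k, postF k, hYi, hYc, hYp, ?_⟩
  intro φ u hu R hR
  simp only [hg]
  obtain ⟨hG1, hG2⟩ := hG φ
  obtain ⟨hl1, hl2⟩ := hQ1 k (vts φ).length u.length hk
  have hPP := hP k (vts φ).length (MM k (vts φ).length u.length) u.length (groups φ).length
    (adjOf (adjM φ)) hk hu hG1 hl1 hl2
  have hR' : 2 * (vts φ).length ^ 2 * LL k (vts φ).length u.length *
      MM k (vts φ).length u.length ≤ R := hR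
  have hcount := hL2 (vts φ).length (MM k (vts φ).length u.length)
    (LL k (vts φ).length u.length) R (fun F => 
    (1 - 1 / (64 * (u.length : ℝ))) * (((indF (vts φ).length (adjOf (adjM φ))).filter
      (fun I => I.card = (groups φ).length)).card : ℝ) *
      lam k (vts φ).length (MM k (vts φ).length u.length) (LL k (vts φ).length u.length) ^
        (groups φ).length ≤ Zt k (adjOf (adjM φ)) F ∧
    Zt k (adjOf (adjM φ)) F ≤ (Real.exp (1 / (64 * (u.length : ℝ))) *
      (((indF (vts φ).length (adjOf (adjM φ))).filter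
      (fun I => I.card = (groups φ).length)).card : ℝ) + 1 / (64 * u.length)) *
        lam k (vts φ).length (MM k (vts φ).length u.length) (LL k (vts φ).length u.length) ^
          (groups φ).length) hR'
  have hsub : {r : List Bool | r.length = R ∧ 
      ((1 - 1 / (64 * (u.length : ℝ))) * (((indF (vts φ).length (adjOf (adjM φ))).filter
      (fun I => I.card = (groups φ).length)).card : ℝ) *
      lam k (vts φ).length (MM k (vts φ).length u.length) (LL k (vts φ).length u.length) ^
        (groups φ).length ≤ Zt k (adjOf (adjM φ)) (FL (vts φ).length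
          (MM k (vts φ).length u.length) (LL k (vts φ).length u.length) r) ∧
    Zt k (adjOf (adjM φ)) (FL (vts φ).length
          (MM k (vts φ).length u.length) (LL k (vts φ).length u.length) r) ≤
      (Real.exp (1 / (64 * (u.length : ℝ))) *
      (((indF (vts φ).length (adjOf (adjM φ))).filter
      (fun I => I.card = (groups φ).length)).card : ℝ) + 1 / (64 * u.length)) *
        lam k (vts φ).length (MM k (vts φ).length u.length) (LL k (vts φ).length u.length) ^
          (groups φ).length)} ⊆
    {r : List Bool | r.length = R ∧ ∀ a b : ℕ,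
        Good (64 * u.length) ((a : ℝ) / b) (polya k (instF k (φ, u, r))) →
        Good u.length (postF k (φ, u, a, b)) (satCount φ)} := by
    rintro r ⟨hr, hr1, hr2⟩
    refine ⟨hr, fun a b hab => ?_⟩
    obtain ⟨hlen, hrec⟩ := hL3 (vts φ).length (MM k (vts φ).length u.length)
      (LL k (vts φ).length u.length) (adjM φ) r
    have hKK := hK k ((vts φ).length * MM k (vts φ).length u.length) _ hrec
    have hLL := hL1 k (vts φ).length (MM k (vts φ).length u.length)
      (LL k (vts φ).length u.length) (adjM φ) r hk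
    have hlampos : 0 < lam k (vts φ).length (MM k (vts φ).length u.length)
        (LL k (vts φ).length u.length) := lt_of_lt_of_le (by positivity) hl1
    obtain ⟨hden, hlam⟩ := hQ2 k (vts φ).length (LL k (vts φ).length u.length)
      (MM k (vts φ).length u.length) hk
    have hk0 : (0 : ℝ) < (k : ℝ) := by
      have : 0 < k := by omega
      exact_mod_cast this
    have hX : 0 < XX k φ u.length := by
      unfold XX
      have h1 := numL_pos hQ2 hk hlampos
      have h2 : 0 < k ^ 4 + k ^ 2 := by
        have : 0 < k := by omega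
        positivity
      positivity
    have hE : 0 < EE k φ u.length := by
      unfold EE
      positivity
    have hXE : ((XX k φ u.length : ℕ) : ℝ) / (EE k φ u.length : ℕ) =
        ((k : ℝ) ^ 4 + k ^ 2) ^ (gsOf (vts φ).length (MM k (vts φ).length u.length)
          (LL k (vts φ).length u.length) (adjM φ) r).length *
        lam k (vts φ).length (MM k (vts φ).length u.length)
          (LL k (vts φ).length u.length) ^ (groups φ).length := by
      rw [hlam, hlen]
      unfold XX EE
      push_cast
      rw [div_pow, mul_div_assoc]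
    have hZ : ((polya k (instF k (φ, u, r)) : ℕ) : ℝ) =
        ((k : ℝ) ^ 4 + k ^ 2) ^ (gsOf (vts φ).length (MM k (vts φ).length u.length)
          (LL k (vts φ).length u.length) (adjM φ) r).length *
        Zt k (adjOf (adjM φ)) (FL (vts φ).length
          (MM k (vts φ).length u.length) (LL k (vts φ).length u.length) r) := by
      rw [← hLL, ← hKK]
      rfl
    have hZpos : (0 : ℝ) < (polya k (instF k (φ, u, r)) : ℕ) := by
      have h1 : polya k (instF k (φ, u, r)) = _ := hKK
      rw [h1]
      exact_mod_cast Zl_pos k _ hk _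
    have hc0 : (0 : ℝ) ≤ ((k : ℝ) ^ 4 + k ^ 2) ^ (gsOf (vts φ).length
        (MM k (vts φ).length u.length) (LL k (vts φ).length u.length) (adjM φ) r).length := by
      positivity
    refine hQ3 u.length (satCount φ) a b (XX k φ u.length) (EE k φ u.length)
      (polya k (instF k (φ, u, r))) hu hX hE hZpos ?_ ?_ hab
    · rw [hXE, hZ, ← hG2]
      have := mul_le_mul_of_nonneg_left hr1 hc0
      refine le_trans (le_of_eq ?_) this
      ring
    · rw [hXE, hZ, ← hG2]
      have := mul_le_mul_of_nonneg_left hr2 hc0
      refine le_trans this (le_of_eq ?_)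
      ring
  have hfin : {r : List Bool | r.length = R ∧ ∀ a b : ℕ,
        Good (64 * u.length) ((a : ℝ) / b) (polya k (instF k (φ, u, r))) →
        Good u.length (postF k (φ, u, a, b)) (satCount φ)}.Finite := by
    refine (List.finite_length_eq Bool R).subset ?_
    rintro r ⟨hr, _⟩
    exact hr
  have hle := Set.ncard_le_ncard hsub hfin
  have hpos : 0 < 2 ^ (2 * (vts φ).length ^ 2 * LL k (vts φ).length u.length *
      MM k (vts φ).length u.length) := by positivity
  exact key_arith hpos hcount hPP hle


/-! ### The groups -/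

open Kasmaux in
theorem mem_cl (N : ℕ) (gs : List (List Bool × List Bool)) :
    ∃ e : (Fin gs.length × Bool × Bool) ≃ Fin (4 * gs.length),
      ∀ σ : Equiv.Perm (Fin (4 * gs.length)),
      σ ∈ Subgroup.closure {τ : Equiv.Perm (Fin (4 * gs.length)) |
        code τ ∈ (instOf N gs).2} →
      ∃ P Q C : Fin gs.length → Bool, e.permCongr (act P Q C) = σ := by
  obtain ⟨e, -, he⟩ := K4_ok gs.length
  refine ⟨e, ?_⟩
  set gv : Fin N → Equiv.Perm (Fin gs.length × Bool × Bool) := fun j =>
    act (PX gs (fun j' => decide (j' = j))) (QX gs (fun j' => decide (j' = j)))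
      (fun _ => false) with hgv
  set gc : Fin gs.length → Equiv.Perm (Fin gs.length × Bool × Bool) := fun i =>
    act (fun _ => false) (fun _ => false) (fun i' => decide (i' = i)) with hgc
  have hcv : ∀ j : Fin N, code (e.permCongr (gv j)) = genVar gs j := by
    intro j
    rw [hgv, he, genVar_eq]
  have hcc : ∀ i : Fin gs.length, code (e.permCongr (gc i)) = genCen gs.length i := by
    intro i
    rw [hgc, he, genCen_eq]
  have hmem : ∀ l : List ℕ, l ∈ (List.range N).map (genVar gs) ++
      (List.range gs.length).map (genCen gs.length) ↔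
      ∃ τ ∈ Set.range gv ∪ Set.range gc, code (e.permCongr τ) = l := by
    intro l
    rw [List.mem_append, List.mem_map, List.mem_map]
    constructor
    · rintro (⟨j, hj, rfl⟩ | ⟨i, hi, rfl⟩)
      · rw [List.mem_range] at hj
        exact ⟨gv ⟨j, hj⟩, Or.inl ⟨_, rfl⟩, hcv ⟨j, hj⟩⟩
      · rw [List.mem_range] at hi
        exact ⟨gc ⟨i, hi⟩, Or.inr ⟨_, rfl⟩, hcc ⟨i, hi⟩⟩
    · rintro ⟨τ, ⟨j, rfl⟩ | ⟨i, rfl⟩, rfl⟩
      · exact Or.inl ⟨j, List.mem_range.2 j.2, (hcv j).symm⟩
      · exact Or.inr ⟨i, List.mem_range.2 i.2, (hcc i).symm⟩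
  have hset : {τ : Equiv.Perm (Fin (4 * gs.length)) | code τ ∈ (List.range N).map (genVar gs) ++
      (List.range gs.length).map (genCen gs.length)} =
      e.permCongrHom.toMonoidHom '' (Set.range gv ∪ Set.range gc) := by
    ext τ
    rw [Set.mem_ofPred_eq, hmem, Set.mem_image]
    constructor
    · rintro ⟨σ, hσ, h⟩
      exact ⟨σ, hσ, code_inj h⟩
    · rintro ⟨σ, hσ, rfl⟩
      exact ⟨σ, hσ, rfl⟩
  intro σ hσ
  have hσ' : σ ∈ Subgroup.closure {τ : Equiv.Perm (Fin (4 * gs.length)) |
      code τ ∈ (List.range N).map (genVar gs) ++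
        (List.range gs.length).map (genCen gs.length)} := hσ
  rw [hset, ← MonoidHom.map_closure, Subgroup.mem_map] at hσ'
  obtain ⟨τ, hτ, rfl⟩ := hσ'
  have h1 : τ ∈ (Subgroup.closure (Set.range gv ∪ Set.range gc) :
      Set (Equiv.Perm (Fin gs.length × Bool × Bool))) := hτ
  rw [hgv, hgc, K2_ok N gs] at h1
  obtain ⟨p, rfl⟩ := h1
  exact ⟨_, _, _, rfl⟩

theorem d4_mul : ∀ p q c p' q' c' : Bool, ∃ c'' : Bool,
    d4 p q c * d4 p' q' c' = d4 (xor p p') (xor q q') c'' := by
  decide

theorem d4_comm : ∀ p q c p' q' c' : Bool, ∃ z : Bool,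
    d4 p q c * d4 p' q' c' = d4 p' q' c' * d4 p q c * d4 false false z := by
  decide

theorem d4_cen : ∀ p q c z : Bool,
    d4 p q c * d4 false false z = d4 false false z * d4 p q c := by
  decide

theorem d4_pow : ∀ p q c : Bool, d4 p q c * d4 p q c * (d4 p q c * d4 p q c) = 1 := by
  decide

end Pool.Agent.H49R2.PY.PD
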