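import Mathlib
import Pool.Agent.Y607.PD.A

/-!
# #PolyaOrbits on nilpotent groups of class two with small orbits: the groups
-/

namespace Pool.Agent.H49R2.PY.PD

open Pool.Agent.NPC Pool.Agent.NPC.Cnt Finset Pool.Agent.H49R2.PY
open Pool.Agent.Y607.PY (Valid valid_of_pos Inst)
open scoped commutatorElement

section Act

variable {G : ℕ}

/-- The elements acting by central involutions on some of the blocks. -/
abbrev cen (Z : Fin G → Bool) : Equiv.Perm (Fin G × Bool × Bool) :=
  act (fun _ => false) (fun _ => false) Z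

theorem comm_act (P Q C P' Q' C' : Fin G → Bool) : ∃ Z : Fin G → Bool,
    act P Q C * act P' Q' C' = act P' Q' C' * act P Q C * cen Z := by
  choose z hz using d4_comm
  refine ⟨fun i => z (P i) (Q i) (C i) (P' i) (Q' i) (C' i), ?_⟩
  refine Equiv.ext fun y => ?_
  have h := congrArg (fun σ : Equiv.Perm (Bool × Bool) => σ y.2)
    (hz (P y.1) (Q y.1) (C y.1) (P' y.1) (Q' y.1) (C' y.1))
  exact Prod.ext rfl h

theorem cen_act (P Q C Z : Fin G → Bool) : act P Q C * cen Z = cen Z * act P Q C := by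
  refine Equiv.ext fun y => ?_
  have h := congrArg (fun σ : Equiv.Perm (Bool × Bool) => σ y.2)
    (d4_cen (P y.1) (Q y.1) (C y.1) (Z y.1))
  exact Prod.ext rfl h

theorem pow_act (P Q C : Fin G → Bool) : act P Q C ^ 4 = 1 := by
  have h0 : act P Q C ^ 4 = act P Q C * act P Q C * (act P Q C * act P Q C) := by
    simp only [pow_succ, pow_zero, one_mul, mul_assoc]
  rw [h0]
  refine Equiv.ext fun y => ?_
  have h := congrArg (fun σ : Equiv.Perm (Bool × Bool) => σ y.2)
    (d4_pow (P y.1) (Q y.1) (C y.1))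
  exact Prod.ext rfl h

theorem class_two (P Q C P' Q' C' P'' Q'' C'' : Fin G → Bool) :
    ⁅⁅act P Q C, act P' Q' C'⁆, act P'' Q'' C''⁆ = 1 := by
  obtain ⟨Z, hZ⟩ := comm_act P Q C P' Q' C'
  have h1 : act P Q C * cen Z = cen Z * act P Q C := cen_act P Q C Z
  have h2 : act P' Q' C' * cen Z = cen Z * act P' Q' C' := cen_act P' Q' C' Z
  have h3 : ⁅act P Q C, act P' Q' C'⁆ = cen Z := by
    rw [commutatorElement_def, hZ, mul_assoc (act P' Q' C') (act P Q C) (cen Z), h1,
      ← mul_assoc (act P' Q' C') (cen Z), h2]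
    group
  rw [h3, commutatorElement_eq_one_iff_mul_comm]
  exact (cen_act P'' Q'' C'' Z).symm

end Act

/-- The group generated by the permutations of `[m]` whose lists of values are in `L` is nilpotent
of class at most two, its exponent divides four, and its orbits have at most four elements. -/
def Small (m : ℕ) (L : List (List ℕ)) : Prop :=
  (∀ a ∈ Subgroup.closure {τ : Equiv.Perm (Fin m) | code τ ∈ L},
    ∀ b ∈ Subgroup.closure {τ : Equiv.Perm (Fin m) | code τ ∈ L},
    ∀ c ∈ Subgroup.closure {τ : Equiv.Perm (Fin m) | code τ ∈ L}, ⁅⁅a, b⁆, c⁆ = 1) ∧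
  (∀ a ∈ Subgroup.closure {τ : Equiv.Perm (Fin m) | code τ ∈ L}, a ^ 4 = 1) ∧
  ∀ x : Fin m,
    {y | ∃ a ∈ Subgroup.closure {τ : Equiv.Perm (Fin m) | code τ ∈ L}, a x = y}.ncard ≤ 4

theorem small_inst (N : ℕ) (gs : List (List Bool × List Bool)) :
    Small (4 * gs.length) (instOf N gs).2 := by
  obtain ⟨e, he⟩ := mem_cl N gs
  have hhom : ∀ σ : Equiv.Perm (Fin gs.length × Bool × Bool),
      e.permCongr σ = e.permCongrHom σ := fun σ => rfl
  refine ⟨?_, ?_, ?_⟩
  · intro a ha b hb c hc
    obtain ⟨P, Q, C, rfl⟩ := he a ha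
    obtain ⟨P', Q', C', rfl⟩ := he b hb
    obtain ⟨P'', Q'', C'', rfl⟩ := he c hc
    rw [hhom, hhom, hhom, ← map_commutatorElement, ← map_commutatorElement, class_two, map_one]
  · intro a ha
    obtain ⟨P, Q, C, rfl⟩ := he a ha
    rw [hhom, ← map_pow, pow_act, map_one]
  · intro x
    have hsub : {y | ∃ a ∈ Subgroup.closure {τ : Equiv.Perm (Fin (4 * gs.length)) |
        code τ ∈ (instOf N gs).2}, a x = y} ⊆
        ((univ : Finset (Bool × Bool)).image (fun b => e ((e.symm x).1, b)) :
          Set (Fin (4 * gs.length))) := by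
      rintro y ⟨a, ha, rfl⟩
      obtain ⟨P, Q, C, rfl⟩ := he a ha
      rw [Finset.coe_image]
      exact ⟨d4 (P (e.symm x).1) (Q (e.symm x).1) (C (e.symm x).1) (e.symm x).2,
        Finset.mem_coe.2 (Finset.mem_univ _), rfl⟩
    refine (Set.ncard_le_ncard hsub (Set.toFinite _)).trans ?_
    rw [Set.ncard_coe_finset]
    refine Finset.card_image_le.trans ?_
    simp

/-- Valid instances whose group is nilpotent of class at most two, of exponent dividing four, with
orbits of at most four elements. -/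
def Cls (I : Inst) : Prop := Valid I ∧ Small I.1.length I.2

theorem cls_inst {k : ℕ} (hk : 2 ≤ k) (s : CNF ℕ × List Unit × List Bool) : Cls (instF k s) := by
  refine ⟨?_, ?_⟩
  · apply valid_of_pos (k := k)
    unfold instF
    obtain ⟨-, hrec⟩ := L3_ok (vts s.1).length (MM k (vts s.1).length s.2.1.length)
      (LL k (vts s.1).length s.2.1.length) (adjM s.1) s.2.2
    rw [K_ok k ((vts s.1).length * MM k (vts s.1).length s.2.1.length) _ hrec]
    exact Masmaux.Zl_pos k _ hk _
  · unfold instF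
    have h : ∀ (N : ℕ) (gs : List (List Bool × List Bool)),
        (instOf N gs).1.length = 4 * gs.length := fun N gs => by simp [instOf]
    rw [h]
    exact small_inst _ _

theorem apHard {k : ℕ} (hk : 2 ≤ k) (g : Inst → ℕ) (hg : ∀ I, Cls I → g I = polya k I)
    (hb : ∃ q : Polynomial ℕ, ∀ I, g I ≤ 2 ^ q.eval (sz I)) : APHard (strFn g) :=
  AP2_ok AP1_ok _ g (mainRed_of hk fun s => hg _ (cls_inst hk s)) hb

end Pool.Agent.H49R2.PY.PD
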