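import Pool.Agent.Y607.PD.B
import Pool.Agent.H49R2.PY.MEM

/-!
# #PolyaOrbits on block-dihedral groups is complete for `#P` under AP-reducibility
-/

namespace Pool.Agent.H49R2.PY.PD

open Pool.Agent.NPC Pool.Agent.NPC.Cnt Finset Pool.Agent.H49R2.PY
open Pool.Agent.Y607.PY (Valid valid_of_pos Inst)

/-- Block-dihedral instances: every listed permutation of `[m]` maps each block
`{4 q, 4 q + 1, 4 q + 2, 4 q + 3}` to itself and preserves the partition into the pairs
`{2 q, 2 q + 1}`. -/
def Dih (I : Inst) : Prop :=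
  ∀ l ∈ I.2, ∀ i < I.1.length, l.getD i 0 / 4 = i / 4 ∧
    ∀ j < I.1.length, i / 2 = j / 2 → l.getD i 0 / 2 = l.getD j 0 / 2

/-- the test -/
def dihB (I : Inst) : Bool :=
  I.2.all fun l => (List.range I.1.length).all fun i => decide (l.getD i 0 / 4 = i / 4) &&
    (List.range I.1.length).all fun j =>
      !decide (i / 2 = j / 2) || decide (l.getD i 0 / 2 = l.getD j 0 / 2)

theorem dihB_iff (I : Inst) : dihB I = true ↔ Dih I := by
  unfold dihB Dih
  simp only [List.all_eq_true, Bool.and_eq_true, decide_eq_true_eq, List.mem_range,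
    Bool.or_eq_true, Bool.not_eq_true', decide_eq_false_iff_not]
  refine forall₂_congr fun l _ => forall₂_congr fun i _ => and_congr_right fun _ =>
    forall₂_congr fun j _ => ?_
  tauto

theorem poly_dihB : Poly (fun I : Inst => dihB I) := by
  unfold dihB
  refine NPC.Poly.all (p := fun (I : Inst) (l : List ℕ) => (List.range I.1.length).all fun i =>
    decide (l.getD i 0 / 4 = i / 4) && (List.range I.1.length).all fun j =>
      !decide (i / 2 = j / 2) || decide (l.getD i 0 / 2 = l.getD j 0 / 2))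
    (NPC.Poly.snd NPC.Poly.id) ?_
  have hm1 : UPoly (fun y : Inst × List ℕ => y.1.1.length) :=
    UPoly.length (NPC.Poly.fst (NPC.Poly.fst NPC.Poly.id))
  refine NPC.Poly.all (p := fun (y : Inst × List ℕ) (i : ℕ) =>
    decide (y.2.getD i 0 / 4 = i / 4) && (List.range y.1.1.length).all fun j =>
      !decide (i / 2 = j / 2) || decide (y.2.getD i 0 / 2 = y.2.getD j 0 / 2)) hm1.range ?_
  have hl : Poly (fun z : (Inst × List ℕ) × ℕ => z.1.2) := NPC.Poly.snd (NPC.Poly.fst NPC.Poly.id)
  have hi : Poly (fun z : (Inst × List ℕ) × ℕ => z.2) := NPC.Poly.snd NPC.Poly.id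
  have hg : Poly (fun z : (Inst × List ℕ) × ℕ => z.1.2.getD z.2 0) :=
    NPC.Poly.getD hl hi (NPC.Poly.const 0)
  have hm2 : UPoly (fun z : (Inst × List ℕ) × ℕ => z.1.1.1.length) :=
    hm1.comp (NPC.Poly.fst NPC.Poly.id)
  refine NPC.Poly.and (NPC.Poly.decide_eq (NPC.Poly.div hg (NPC.Poly.const 4))
    (NPC.Poly.div hi (NPC.Poly.const 4))) ?_
  refine NPC.Poly.all (p := fun (z : (Inst × List ℕ) × ℕ) (j : ℕ) =>
    !decide (z.2 / 2 = j / 2) || decide (z.1.2.getD z.2 0 / 2 = z.1.2.getD j 0 / 2)) hm2.range ?_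
  have hl' : Poly (fun w : ((Inst × List ℕ) × ℕ) × ℕ => w.1.1.2) := hl.comp (NPC.Poly.fst NPC.Poly.id)
  have hi' : Poly (fun w : ((Inst × List ℕ) × ℕ) × ℕ => w.1.2) := hi.comp (NPC.Poly.fst NPC.Poly.id)
  have hj' : Poly (fun w : ((Inst × List ℕ) × ℕ) × ℕ => w.2) := NPC.Poly.snd NPC.Poly.id
  have two : Poly (fun w : ((Inst × List ℕ) × ℕ) × ℕ => 2) := NPC.Poly.const 2
  exact NPC.Poly.or (NPC.Poly.not (NPC.Poly.decide_eq (NPC.Poly.div hi' two)
    (NPC.Poly.div hj' two))) (NPC.Poly.decide_eq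
      (NPC.Poly.div (NPC.Poly.getD hl' hi' (NPC.Poly.const 0)) two)
      (NPC.Poly.div (NPC.Poly.getD hl' hj' (NPC.Poly.const 0)) two))

/-- Restricting a function of `#P` to a polynomial-time decidable set. -/
theorem sharpP_restrict {f : List Bool → ℕ} (hf : SharpP f) {t : List Bool → Bool} (ht : Poly t) :
    SharpP (fun x => if t x = true then f x else 0) := by
  obtain ⟨V, p, hV, hf⟩ := hf
  have h0 : Poly V := PIso.poly_iff.2 hV
  have h1 : Poly (fun q : List Bool × List Bool => pairBits q.1 q.2) := by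
    unfold pairBits
    fun_prop
  refine sharpP_of_poly (fun y => t y.1 && decide (V (pairBits y.1 y.2) = [true])) ?_ p ?_
  · exact NPC.Poly.and (ht.comp (NPC.Poly.fst NPC.Poly.id))
      (NPC.Poly.decide_eq (h0.comp h1) (NPC.Poly.const [true]))
  · intro x
    by_cases hx : t x = true
    · rw [if_pos hx, hf x]
      refine Nat.card_congr (Equiv.subtypeEquivRight fun w => ?_)
      simp [hx]
    · rw [if_neg hx]
      symm
      rw [Nat.card_eq_zero]
      left
      refine ⟨fun w => ?_⟩
      have := w.2.2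
      simp [hx] at this

open Classical in
/-- #PolyaOrbits restricted to block-dihedral instances. -/
noncomputable def polyaD (k : ℕ) (I : Inst) : ℕ := if Dih I then polya k I else 0

/-- the test on strings -/
def tst (x : List Bool) : Bool :=
  match (decode x : Option Inst) with
  | none => false
  | some I => dihB I

theorem poly_tst : Poly tst := by
  refine (NPC.Poly.optCases (o := fun x : List Bool => (decode x : Option Inst))
    (g := fun _ => false) (h := fun _ I => dihB I) poly_decode (NPC.Poly.const false)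
    (poly_dihB.comp (NPC.Poly.snd NPC.Poly.id))).congr fun x => ?_
  unfold tst
  cases (decode x : Option Inst) <;> rfl

theorem sharpP_polyaD (k : ℕ) : SharpP (strFn (polyaD k)) := by
  classical
  have h := sharpP_restrict (MEM_ok k) poly_tst
  have e : (fun x => if tst x = true then strFn (polya k) x else 0) = strFn (polyaD k) := by
    funext x
    by_cases hx : ∃ I : Inst, bits I = x
    · obtain ⟨I, rfl⟩ := hx
      have h1 : decode (bits I) = some I := decode_eq_some.2 rfl
      have h2 : tst (bits I) = dihB I := by unfold tst; rw [h1]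
      rw [strFn_bits, strFn_bits, h2, polyaD]
      by_cases hI : Dih I
      · rw [if_pos ((dihB_iff I).2 hI), if_pos hI]
      · rw [if_neg (fun h => hI ((dihB_iff I).1 h)), if_neg hI]
    · rw [strFn_of_not _ hx, strFn_of_not _ hx]
      split_ifs <;> rfl
  rw [← e]
  exact h

open Kasmaux in
theorem list_form (N : ℕ) (gs : List (List Bool × List Bool)) :
    ∃ e : (Fin gs.length × Bool × Bool) ≃ Fin (4 * gs.length), (∀ y, e y = toF gs.length y) ∧
      ∀ l ∈ (instOf N gs).2, ∃ P Q C : Fin gs.length → Bool,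
        code (e.permCongr (act P Q C)) = l := by
  obtain ⟨e, he0, he⟩ := K4_ok gs.length
  refine ⟨e, he0, fun l hl => ?_⟩
  have hl' : l ∈ (List.range N).map (genVar gs) ++
    (List.range gs.length).map (genCen gs.length) := hl
  rw [List.mem_append, List.mem_map, List.mem_map] at hl'
  rcases hl' with ⟨j, hj, rfl⟩ | ⟨i, hi, rfl⟩
  · rw [List.mem_range] at hj
    refine ⟨PX gs (fun j' : Fin N => decide (j' = ⟨j, hj⟩)),
      QX gs (fun j' : Fin N => decide (j' = ⟨j, hj⟩)), fun _ => false, ?_⟩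
    rw [he]
    exact (genVar_eq gs (⟨j, hj⟩ : Fin N)).symm
  · rw [List.mem_range] at hi
    refine ⟨fun _ => false, fun _ => false, fun i' => decide (i' = ⟨i, hi⟩), ?_⟩
    rw [he]
    exact (genCen_eq gs.length ⟨i, hi⟩).symm

theorem toNat_inj' : ∀ {a b : Bool}, a.toNat = b.toNat → a = b := by decide

theorem dih_act {G : ℕ} (e : (Fin G × Bool × Bool) ≃ Fin (4 * G)) (he : ∀ y, e y = toF G y)
    (P Q C : Fin G → Bool) (i : ℕ) (hi : i < 4 * G) :
    (code (e.permCongr (act P Q C))).getD i 0 / 4 = i / 4 ∧ ∀ j < 4 * G, i / 2 = j / 2 →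
      (code (e.permCongr (act P Q C))).getD i 0 / 2 =
        (code (e.permCongr (act P Q C))).getD j 0 / 2 := by
  have hval : ∀ (i : ℕ) (hi : i < 4 * G), ∃ y : Fin G × Bool × Bool,
      i = 4 * y.1 + 2 * y.2.1.toNat + y.2.2.toNat ∧
      (code (e.permCongr (act P Q C))).getD i 0 =
        4 * (y.1 : ℕ) + 2 * (xor y.2.1 (Q y.1)).toNat +
          (xor (xor y.2.2 (C y.1)) (P y.1 && !y.2.1)).toNat := by
    intro i hi
    refine ⟨e.symm ⟨i, hi⟩, ?_, ?_⟩
    · have h1 := he (e.symm ⟨i, hi⟩)
      rw [Equiv.apply_symm_apply] at h1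
      exact congrArg Fin.val h1
    · have hlen : i < (code (e.permCongr (act P Q C))).length := by simpa [code] using hi
      rw [List.getD_eq_getElem _ _ hlen]
      simp only [code, List.getElem_ofFn, Equiv.permCongr_apply, he]
      rfl
  obtain ⟨y, h1, h2⟩ := hval i hi
  refine ⟨?_, fun j hj hij => ?_⟩
  · rw [h2]
    have b1 := Bool.toNat_le (xor y.2.1 (Q y.1))
    have b2 := Bool.toNat_le (xor (xor y.2.2 (C y.1)) (P y.1 && !y.2.1))
    have b3 := Bool.toNat_le y.2.1
    have b4 := Bool.toNat_le y.2.2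
    omega
  · obtain ⟨y', h1', h2'⟩ := hval j hj
    have b3 := Bool.toNat_le y.2.1
    have b4 := Bool.toNat_le y.2.2
    have b3' := Bool.toNat_le y'.2.1
    have b4' := Bool.toNat_le y'.2.2
    have c1 : (y.1 : ℕ) = y'.1 := by omega
    have c2 : y.2.1.toNat = y'.2.1.toNat := by omega
    have c3 : y.1 = y'.1 := Fin.ext c1
    have c4 : y.2.1 = y'.2.1 := toNat_inj' c2
    have c5 : (xor y.2.1 (Q y.1)) = (xor y'.2.1 (Q y'.1)) := by rw [c3, c4]
    have b2 := Bool.toNat_le (xor (xor y.2.2 (C y.1)) (P y.1 && !y.2.1))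
    have b2' := Bool.toNat_le (xor (xor y'.2.2 (C y'.1)) (P y'.1 && !y'.2.1))
    rw [h2, h2', c5]
    omega

theorem dih_inst (k : ℕ) (s : CNF ℕ × List Unit × List Bool) : Dih (instF k s) := by
  unfold instF
  have h : ∀ (N : ℕ) (gs : List (List Bool × List Bool)), Dih (instOf N gs) := by
    intro N gs l hl i hi
    have hm : (instOf N gs).1.length = 4 * gs.length := by simp [instOf]
    rw [hm] at hi ⊢
    obtain ⟨e, he0, he⟩ := list_form N gs
    obtain ⟨P, Q, C, rfl⟩ := he l hl
    exact dih_act e he0 P Q C i hi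
  exact h _ _

/-- Hardness for all functions which agree with #PolyaOrbits on the small class. -/
theorem apHard' {k : ℕ} (hk : 2 ≤ k) (g : Inst → ℕ)
    (hg : ∀ I, Valid I → Dih I → Small I.1.length I.2 → g I = polya k I)
    (hb : ∃ q : Polynomial ℕ, ∀ I, g I ≤ 2 ^ q.eval (sz I)) : APHard (strFn g) :=
  AP2_ok AP1_ok _ g (mainRed_of hk fun s =>
    hg _ (cls_inst hk s).1 (dih_inst k s) (cls_inst hk s).2) hb

theorem apHard_polyaD {k : ℕ} (hk : 2 ≤ k) : APHard (strFn (polyaD k)) := by
  classical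
  refine apHard' hk _ (fun I _ h _ => if_pos h) ?_
  obtain ⟨q, hq⟩ := SZ_ok k
  refine ⟨q, fun I => ?_⟩
  unfold polyaD
  split_ifs
  · exact hq I
  · exact Nat.zero_le _

end Pool.Agent.H49R2.PY.PD
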